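import Mathlib

/-!
For every `k ≥ 2` and every rational `0 < α ≤ 1 / (k - 1)` there is a connected graph whose FAT
chromatic number is exactly `k` and which admits a FAT `k`-colouring with parameter `α`.
-/

namespace Pool.Agent.Results.MP_2d49c6_co.PrescribedParameter

open Finset

/-- The number of neighbours of `v` in the colour class `i` of `c`. -/
noncomputable def nbrsIn {V : Type} [Fintype V] (G : SimpleGraph V) {k : ℕ} (c : V → Fin k)
    (v : V) (i : Fin k) : ℕ := by
  classical exact (univ.filter (fun w => G.Adj v w ∧ c w = i)).card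

/-- The degree of `v`. -/
noncomputable def deg {V : Type} [Fintype V] (G : SimpleGraph V) (v : V) : ℕ := by
  classical exact (univ.filter (fun w => G.Adj v w)).card

/-- `c` is a FAT `k`-colouring of `G` with parameter `α`. -/
def IsFAT {V : Type} [Fintype V] (G : SimpleGraph V) {k : ℕ} (c : V → Fin k) (α : ℝ) : Prop :=
  Function.Surjective c ∧ 0 ≤ α ∧ α ≤ 1 ∧
    ∀ (v : V) (i : Fin k),
      (c v ≠ i → (nbrsIn G c v i : ℝ) = α * (deg G v : ℝ)) ∧
      (c v = i → (nbrsIn G c v i : ℝ) = (1 - ((k : ℝ) - 1) * α) * (deg G v : ℝ))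

/-- The FAT chromatic number of `G` is `k`: the largest `m` for which `G` has a FAT
`m`-colouring (with some parameter) is `k`. -/
def FATChromaticEq {V : Type} [Fintype V] (G : SimpleGraph V) (k : ℕ) : Prop :=
  IsGreatest {m : ℕ | ∃ (c : V → Fin m) (a : ℝ), IsFAT G c a} k

/-- symmetric interval in `ZMod P` -/
def S (P m : ℕ) : Set (ZMod P) := {x | ∃ j : ℕ, 1 ≤ j ∧ j ≤ m ∧ (x = (j : ZMod P) ∨ x = -(j : ZMod P))}

lemma S_neg {P m : ℕ} {x : ZMod P} (h : x ∈ S P m) : -x ∈ S P m := by
  obtain ⟨j, h1, h2, h3⟩ := h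
  refine ⟨j, h1, h2, ?_⟩
  rcases h3 with h3 | h3
  · right; rw [h3]
  · left; rw [h3, neg_neg]

lemma zero_notMem_S {P m : ℕ} (hm : m < P) : (0 : ZMod P) ∉ S P m := by
  rintro ⟨j, h1, h2, h3⟩
  have h : ((j : ℕ) : ZMod P) = 0 := by
    rcases h3 with h3 | h3
    · exact h3.symm
    · have := h3.symm; simpa using this
  rw [ZMod.natCast_eq_zero_iff] at h
  exact absurd (Nat.le_of_dvd (by omega) h) (by omega)

open Classical in
lemma card_S {P m : ℕ} [NeZero P] (hm : 2 * m < P) :
    (univ.filter (fun x : ZMod P => x ∈ S P m)).card = 2 * m := by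
  have e : univ.filter (fun x : ZMod P => x ∈ S P m) =
      (Finset.Icc 1 m).image (fun j : ℕ => (j : ZMod P)) ∪
      (Finset.Icc 1 m).image (fun j : ℕ => -(j : ZMod P)) := by
    ext x
    simp only [mem_filter, mem_univ, true_and, mem_union, mem_image, mem_Icc]
    constructor
    · rintro ⟨j, h1, h2, h3⟩
      rcases h3 with h3 | h3
      · left; exact ⟨j, ⟨h1, h2⟩, h3.symm⟩
      · right; exact ⟨j, ⟨h1, h2⟩, h3.symm⟩
    · rintro (⟨j, ⟨h1, h2⟩, h3⟩ | ⟨j, ⟨h1, h2⟩, h3⟩)
      · exact ⟨j, h1, h2, Or.inl h3.symm⟩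
      · exact ⟨j, h1, h2, Or.inr h3.symm⟩
  have inj : ∀ a b : ℕ, a ≤ m → b ≤ m → (a : ZMod P) = (b : ZMod P) → a = b := by
    intro a b ha hb h
    have := (ZMod.natCast_eq_natCast_iff' a b P).1 h
    rwa [Nat.mod_eq_of_lt (by omega), Nat.mod_eq_of_lt (by omega)] at this
  rw [e, card_union_of_disjoint, card_image_of_injOn, card_image_of_injOn]
  · simp; omega
  · intro a ha b hb h
    simp only [coe_Icc, Set.mem_Icc] at ha hb
    exact inj a b ha.2 hb.2 (neg_injective h)
  · intro a ha b hb h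
    simp only [coe_Icc, Set.mem_Icc] at ha hb
    exact inj a b ha.2 hb.2 h
  · rw [Finset.disjoint_left]
    intro x hx hy
    simp only [mem_image, mem_Icc] at hx hy
    obtain ⟨a, ⟨ha1, ha2⟩, ha⟩ := hx
    obtain ⟨b, ⟨hb1, hb2⟩, hb⟩ := hy
    have h : ((a + b : ℕ) : ZMod P) = 0 := by
      push_cast
      rw [ha, ← hb]; ring
    rw [ZMod.natCast_eq_zero_iff] at h
    exact absurd (Nat.le_of_dvd (by omega) h) (by omega)

/-- The graph on `Fin k × ZMod P`. -/
def G (k P p b : ℕ) (hb : b < P) : SimpleGraph (Fin k × ZMod P) where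
  Adj u v := (u.1 = v.1 ∧ v.2 - u.2 ∈ S P b) ∨ (u.1 ≠ v.1 ∧ v.2 - u.2 ∈ S P p)
  symm := ⟨by
    rintro u v (⟨h1, h2⟩ | ⟨h1, h2⟩)
    · left; exact ⟨h1.symm, by simpa using S_neg h2⟩
    · right; exact ⟨fun h => h1 h.symm, by simpa using S_neg h2⟩⟩
  loopless := ⟨by
    rintro u (⟨_, h2⟩ | ⟨h1, _⟩)
    · rw [sub_self] at h2; exact zero_notMem_S hb h2
    · exact h1 rfl⟩

lemma G_adj {k P p b : ℕ} (hb : b < P) (u v : Fin k × ZMod P) :
    (G k P p b hb).Adj u v ↔
      ((u.1 = v.1 ∧ v.2 - u.2 ∈ S P b) ∨ (u.1 ≠ v.1 ∧ v.2 - u.2 ∈ S P p)) := Iff.rfl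

section main

variable {k P p b : ℕ} [NeZero P] (hb : b < P)

open Classical in
lemma nbrs_G (hp2 : 2 * p < P) (hb2 : 2 * b < P) (u : Fin k × ZMod P) (j : Fin k) :
    nbrsIn (G k P p b hb) (fun v => v.1) u j = if u.1 = j then 2 * b else 2 * p := by
  unfold nbrsIn
  have key : ∀ m : ℕ, 2 * m < P →
      (univ.filter (fun w : Fin k × ZMod P => w.1 = j ∧ w.2 - u.2 ∈ S P m)).card = 2 * m := by
    intro m hm
    rw [← card_S hm]
    symm
    apply card_bij (fun (x : ZMod P) _ => ((j, x + u.2) : Fin k × ZMod P))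
    · intro x hx
      simp only [mem_filter, mem_univ, true_and] at hx ⊢
      simpa using hx
    · intro x _ y _ h
      have := congrArg Prod.snd h
      simpa using this
    · rintro ⟨w1, w2⟩ hw
      simp only [mem_filter, mem_univ, true_and] at hw
      refine ⟨w2 - u.2, ?_, ?_⟩
      · simp only [mem_filter, mem_univ, true_and]; exact hw.2
      · ext <;> simp [hw.1]
  split_ifs with h
  · rw [← key b hb2]
    apply congrArg Finset.card
    ext w
    simp only [mem_filter, mem_univ, true_and]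
    rw [G_adj]
    constructor
    · rintro ⟨h1 | h1, h2⟩
      · exact ⟨h2, h1.2⟩
      · exact absurd (h.trans h2.symm) h1.1
    · rintro ⟨h1, h2⟩
      exact ⟨Or.inl ⟨h.trans h1.symm, h2⟩, h1⟩
  · rw [← key p hp2]
    apply congrArg Finset.card
    ext w
    simp only [mem_filter, mem_univ, true_and]
    rw [G_adj]
    constructor
    · rintro ⟨h1 | h1, h2⟩
      · exact absurd (h1.1.trans h2) h
      · exact ⟨h2, h1.2⟩
    · rintro ⟨h1, h2⟩
      exact ⟨Or.inr ⟨fun e => h (e.trans h1), h2⟩, h1⟩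

end main

open Classical in
lemma deg_eq_sum {V : Type} [Fintype V] (G : SimpleGraph V) {k : ℕ} (c : V → Fin k) (v : V) :
    deg G v = ∑ i, nbrsIn G c v i := by
  unfold deg nbrsIn
  rw [card_eq_sum_card_fiberwise (f := c) (t := univ) (fun _ _ => mem_univ _)]
  apply sum_congr rfl
  intro i _
  congr 1
  ext w
  simp

open Classical in
lemma double_count {V : Type} [Fintype V] (G : SimpleGraph V) {k : ℕ} (c : V → Fin k)
    (i j : Fin k) :
    ∑ v ∈ univ.filter (fun v => c v = i), nbrsIn G c v j =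
      ∑ v ∈ univ.filter (fun v => c v = j), nbrsIn G c v i := by
  unfold nbrsIn
  simp only [card_filter, sum_filter]
  rw [show (∑ a, if c a = i then ∑ x, (if G.Adj a x ∧ c x = j then 1 else 0) else 0) =
    ∑ a, ∑ x, (if c a = i ∧ G.Adj a x ∧ c x = j then 1 else 0) from ?_,
    show (∑ a, if c a = j then ∑ x, (if G.Adj a x ∧ c x = i then 1 else 0) else 0) =
    ∑ a, ∑ x, (if c a = j ∧ G.Adj a x ∧ c x = i then 1 else 0) from ?_]
  · rw [sum_comm]
    apply sum_congr rfl
    intro a _
    apply sum_congr rfl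
    intro x _
    congr 1
    apply propext
    constructor
    · rintro ⟨h1, h2, h3⟩; exact ⟨h3, h2.symm, h1⟩
    · rintro ⟨h1, h2, h3⟩; exact ⟨h3, h2.symm, h1⟩
  · apply sum_congr rfl
    intro a _
    by_cases h : c a = j <;> simp [h]
  · apply sum_congr rfl
    intro a _
    by_cases h : c a = i <;> simp [h]

lemma fat_upper {V : Type} [Fintype V] (G : SimpleGraph V) (hc : G.Connected) (d : ℕ)
    (hd : ∀ v, deg G v = d) (k P : ℕ) (hk : 2 ≤ k) (hP : P.Prime) (hdP : d + 1 < P)
    (hcard : Fintype.card V = k * P) (m : ℕ) (c : V → Fin m) (a : ℝ) (h : IsFAT G c a) :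
    m ≤ k := by
  classical
  obtain ⟨hs, ha0, ha1, hF⟩ := h
  by_contra hmk
  push Not at hmk
  have hm2 : 2 ≤ m := by omega
  -- a > 0
  have hapos : 0 < a := by
    rcases lt_or_eq_of_le ha0 with h | h
    · exact h
    · exfalso
      have hconst : ∀ u v, G.Adj u v → c u = c v := by
        intro u v huv
        by_contra hne
        have h1 := (hF u (c v)).1 hne
        rw [← h, zero_mul] at h1
        have h2 : nbrsIn G c u (c v) = 0 := by exact_mod_cast h1
        unfold nbrsIn at h2
        rw [card_eq_zero] at h2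
        have h3 : v ∈ univ.filter (fun w => G.Adj u w ∧ c w = c v) := by simp [huv]
        rw [h2] at h3
        simp at h3
      have hall : ∀ u v, c u = c v := by
        intro u v
        obtain ⟨w⟩ := hc.preconnected u v
        induction w with
        | nil => rfl
        | cons h p ih => exact (hconst _ _ h).trans ih
      obtain ⟨u, hu⟩ := hs ⟨0, by omega⟩
      obtain ⟨v, hv⟩ := hs ⟨1, by omega⟩
      have := (hu.symm.trans (hall u v)).trans hv
      simp at this
  have hdpos : 0 < (d : ℝ) := by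
    by_contra hd0
    have hd0' : d = 0 := by
      by_contra hne
      exact hd0 (by exact_mod_cast Nat.pos_of_ne_zero hne)
    obtain ⟨u, hu⟩ := hs ⟨0, by omega⟩
    obtain ⟨v, hv⟩ := hs ⟨1, by omega⟩
    have hne : u ≠ v := by rintro rfl; rw [hu] at hv; simp at hv
    obtain ⟨w⟩ := hc.preconnected u v
    cases w with
    | nil => exact hne rfl
    | cons h p =>
      rename_i x
      have h0 := hd u
      rw [hd0'] at h0
      unfold deg at h0
      rw [card_eq_zero] at h0
      have h3 : x ∈ univ.filter (fun w => G.Adj u w) := by simp [h]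
      rw [h0] at h3
      simp at h3
  -- m ≤ d + 1
  have hge1 : ∀ v i, c v ≠ i → 1 ≤ nbrsIn G c v i := by
    intro v i hne
    have h1 := (hF v i).1 hne
    rw [hd v] at h1
    have h2 : 0 < (nbrsIn G c v i : ℝ) := by rw [h1]; positivity
    exact_mod_cast h2
  have hmd : m ≤ d + 1 := by
    obtain ⟨v, hv⟩ := hs ⟨0, by omega⟩
    have h1 := deg_eq_sum G c v
    rw [hd v] at h1
    have h2 : ∑ i ∈ univ.erase (c v), 1 ≤ ∑ i ∈ univ.erase (c v), nbrsIn G c v i := by
      apply sum_le_sum
      intro i hi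
      exact hge1 v i (fun e => by simp [e] at hi)
    have h3 : ∑ i ∈ univ.erase (c v), nbrsIn G c v i ≤ ∑ i, nbrsIn G c v i :=
      sum_le_sum_of_subset (erase_subset _ _)
    rw [sum_const, card_erase_of_mem (mem_univ _), card_univ, Fintype.card_fin] at h2
    simp only [smul_eq_mul, mul_one] at h2
    omega
  -- equal class sizes
  have heq : ∀ i j : Fin m, (univ.filter (fun v => c v = i)).card =
      (univ.filter (fun v => c v = j)).card := by
    intro i j
    by_cases hij : i = j
    · rw [hij]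
    have h1 := double_count G c i j
    have h2 : (∑ v ∈ univ.filter (fun v => c v = i), (nbrsIn G c v j : ℝ)) =
        (univ.filter (fun v => c v = i)).card * (a * d) := by
      rw [← nsmul_eq_mul, ← sum_const]
      apply sum_congr rfl
      intro v hv
      simp only [mem_filter, mem_univ, true_and] at hv
      rw [(hF v j).1 (fun e => hij (hv.symm.trans e)), hd v]
    have h3 : (∑ v ∈ univ.filter (fun v => c v = j), (nbrsIn G c v i : ℝ)) =
        (univ.filter (fun v => c v = j)).card * (a * d) := by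
      rw [← nsmul_eq_mul, ← sum_const]
      apply sum_congr rfl
      intro v hv
      simp only [mem_filter, mem_univ, true_and] at hv
      rw [(hF v i).1 (fun e => hij (e.symm.trans hv)), hd v]
    have h4 : ((univ.filter (fun v => c v = i)).card : ℝ) * (a * d) =
        (univ.filter (fun v => c v = j)).card * (a * d) := by
      rw [← h2, ← h3]; exact_mod_cast h1
    have h5 := mul_right_cancel₀ (by positivity) h4
    exact_mod_cast h5
  have hsum : Fintype.card V = m * (univ.filter (fun v => c v = (⟨0, by omega⟩ : Fin m))).card := by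
    rw [← card_univ, card_eq_sum_card_fiberwise (f := c) (t := univ) (fun _ _ => mem_univ _),
      sum_congr rfl (fun i _ => heq i ⟨0, by omega⟩), sum_const, card_univ, Fintype.card_fin,
      smul_eq_mul]
  have hdvd : m ∣ k * P := ⟨_, by rw [← hcard]; exact hsum⟩
  have hcop : Nat.Coprime m P := by
    rw [Nat.coprime_comm, Nat.Prime.coprime_iff_not_dvd hP]
    intro hdv
    exact absurd (Nat.le_of_dvd (by omega) hdv) (by omega)
  have := Nat.le_of_dvd (by omega) (hcop.dvd_of_dvd_mul_right hdvd)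
  omega

lemma G_connected {k P p b : ℕ} [NeZero P] (hb : b < P) (hk : 2 ≤ k) (hp1 : 1 ≤ p)
    (hodd : Odd P) : (G k P p b hb).Connected := by
  have h1S : (1 : ZMod P) ∈ S P p := ⟨1, le_refl _, hp1, by left; simp⟩
  have hadj : ∀ (i j : Fin k) (x : ZMod P), i ≠ j → (G k P p b hb).Adj (i, x) (j, x + 1) := by
    intro i j x hij
    right
    exact ⟨hij, by simpa using h1S⟩
  have hex : ∀ i : Fin k, ∃ j : Fin k, i ≠ j := by
    intro i
    by_cases h : i = ⟨0, by omega⟩
    · exact ⟨⟨1, by omega⟩, by rw [h]; simp⟩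
    · exact ⟨⟨0, by omega⟩, h⟩
  have h2 : ∀ (i : Fin k) (x : ZMod P), (G k P p b hb).Reachable (i, x) (i, x + 2) := by
    intro i x
    obtain ⟨j, hj⟩ := hex i
    have e : x + 2 = x + 1 + 1 := by ring
    rw [e]
    exact (hadj i j x hj).reachable.trans (hadj j i (x + 1) (Ne.symm hj)).reachable
  have h3 : ∀ (i : Fin k) (x : ZMod P) (t : ℕ), (G k P p b hb).Reachable (i, x) (i, x + 2 * t) := by
    intro i x t
    induction t with
    | zero => simp
    | succ t ih =>
      have e : x + 2 * ((t + 1 : ℕ) : ZMod P) = (x + 2 * t) + 2 := by push_cast; ring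
      rw [e]
      exact ih.trans (h2 i _)
  have h4 : ∀ (i : Fin k) (x : ZMod P), (G k P p b hb).Reachable (i, x) (i, x + 1) := by
    intro i x
    obtain ⟨r, hr⟩ := hodd
    have h := h3 i x (r + 1)
    have e : (2 : ZMod P) * ((r + 1 : ℕ) : ZMod P) = 1 := by
      have : ((2 * r + 1 : ℕ) : ZMod P) = 0 := by rw [← hr]; exact ZMod.natCast_self P
      push_cast at this ⊢
      linear_combination this
    rwa [e] at h
  have h5 : ∀ (i : Fin k) (x : ZMod P) (t : ℕ), (G k P p b hb).Reachable (i, x) (i, x + t) := by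
    intro i x t
    induction t with
    | zero => simp
    | succ t ih =>
      have e : x + ((t + 1 : ℕ) : ZMod P) = (x + t) + 1 := by push_cast; ring
      rw [e]
      exact ih.trans (h4 i _)
  have h6 : ∀ (i : Fin k) (x y : ZMod P), (G k P p b hb).Reachable (i, x) (i, y) := by
    intro i x y
    have h := h5 i x (y - x).val
    rw [ZMod.natCast_zmod_val] at h
    simpa using h
  refine { preconnected := ?_, nonempty := ⟨(⟨0, by omega⟩, 0)⟩ }
  rintro ⟨i, x⟩ ⟨j, y⟩
  by_cases hij : i = j
  · subst hij; exact h6 i x y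
  · exact (hadj i j x hij).reachable.trans (h6 j _ _)

/-- For every integer `k ≥ 2` and every rational `0 < α ≤ 1 / (k - 1)` there is a finite connected
graph with FAT chromatic number exactly `k` that admits a FAT `k`-colouring with parameter `α`. -/
theorem result : ∀ (k : ℕ) (α : ℚ), 2 ≤ k → 0 < α → α ≤ 1 / ((k : ℚ) - 1) →
    ∃ (V : Type) (_ : Fintype V) (G : SimpleGraph V), G.Connected ∧ 2 ≤ Fintype.card V ∧
      FATChromaticEq G k ∧ ∃ c : V → Fin k, IsFAT G c (α : ℝ) := by
  intro k α hk hα0 hα1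
  classical
  set q : ℕ := α.den with hq
  obtain ⟨p, hp⟩ : ∃ p : ℕ, α.num = p := ⟨α.num.toNat, by
    rw [Int.toNat_of_nonneg]; exact (Rat.num_pos.2 hα0).le⟩
  have hqpos : 0 < q := α.den_pos
  have hp1 : 1 ≤ p := by
    have := Rat.num_pos.2 hα0
    rw [hp] at this; exact_mod_cast this
  have hαq : α = (p : ℚ) / q := by
    conv_lhs => rw [← Rat.num_div_den α]
    rw [hp]; rfl
  have hk1 : (0 : ℚ) < (k : ℚ) - 1 := by
    have : (2 : ℚ) ≤ k := by exact_mod_cast hk
    linarith
  have hq0 : (0 : ℚ) < q := by exact_mod_cast hqpos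
  have hpq : (k - 1) * p ≤ q := by
    have h1 : (p : ℚ) / q ≤ 1 / ((k : ℚ) - 1) := hαq ▸ hα1
    rw [div_le_div_iff₀ hq0 hk1] at h1
    have h2 : (((k - 1) * p : ℕ) : ℚ) ≤ q := by
      rw [Nat.cast_mul, Nat.cast_sub (by omega)]
      push_cast
      linarith
    exact_mod_cast h2
  obtain ⟨b, hb⟩ : ∃ b, b + (k - 1) * p = q := ⟨q - (k - 1) * p, by omega⟩
  have hple : p ≤ q := by
    calc p = 1 * p := (one_mul p).symm
      _ ≤ (k - 1) * p := Nat.mul_le_mul_right p (by omega)
      _ ≤ q := hpq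
  obtain ⟨P, hPge, hP⟩ := Nat.exists_infinite_primes (2 * q + 2)
  have : NeZero P := ⟨hP.ne_zero⟩
  have hbP : b < P := by omega
  have hdeg : ∀ v, deg (G k P p b hbP) v = 2 * q := by
    intro v
    rw [deg_eq_sum _ (fun v => v.1) v, ← add_sum_erase _ _ (mem_univ v.1),
      nbrs_G hbP (by omega) (by omega), if_pos rfl]
    rw [sum_congr rfl (g := fun _ => 2 * p)]
    · rw [sum_const, card_erase_of_mem (mem_univ _), card_univ, Fintype.card_fin, smul_eq_mul,
        ← hb]
      ring
    · intro i hi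
      rw [nbrs_G hbP (by omega) (by omega), if_neg]
      intro e
      simp [e] at hi
  have hconn := G_connected (k := k) (p := p) hbP hk hp1 (hP.odd_of_ne_two (by omega))
  have hFAT : IsFAT (G k P p b hbP) (fun v => v.1) ((α : ℚ) : ℝ) := by
    have hqR : (q : ℝ) ≠ 0 := by exact_mod_cast hqpos.ne'
    refine ⟨fun i => ⟨(i, 0), rfl⟩, ?_, ?_, ?_⟩
    · exact_mod_cast hα0.le
    · have : α ≤ 1 := by
        apply hα1.trans
        rw [div_le_one hk1]
        have : (2 : ℚ) ≤ k := by exact_mod_cast hk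
        linarith
      exact_mod_cast this
    · intro v i
      have hc : ((α : ℚ) : ℝ) = (p : ℝ) / q := by rw [hαq]; push_cast; rfl
      have hbR : (b : ℝ) + ((k : ℝ) - 1) * p = q := by
        have : ((b + (k - 1) * p : ℕ) : ℝ) = q := by rw [hb]
        rw [Nat.cast_add, Nat.cast_mul, Nat.cast_sub (by omega)] at this
        simpa using this
      constructor
      · intro hne
        rw [nbrs_G hbP (by omega) (by omega), if_neg hne, hdeg, hc]
        push_cast
        field_simp
      · intro he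
        rw [nbrs_G hbP (by omega) (by omega), if_pos he, hdeg, hc]
        push_cast
        field_simp
        linarith
  refine ⟨Fin k × ZMod P, inferInstance, G k P p b hbP, hconn, ?_, ⟨⟨_, _, hFAT⟩, ?_⟩, _, hFAT⟩
  · rw [Fintype.card_prod, Fintype.card_fin, ZMod.card]
    calc 2 ≤ k * 1 := by omega
      _ ≤ k * P := Nat.mul_le_mul_left k hP.one_lt.le
  · rintro m ⟨c, a, h⟩
    exact fat_upper _ hconn (2 * q) hdeg k P hk hP (by omega)
      (by rw [Fintype.card_prod, Fintype.card_fin, ZMod.card]) m c a h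

end Pool.Agent.Results.MP_2d49c6_co.PrescribedParameter
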